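import Pool.Agent.helper73.TC.XData
import Pool.Agent.helper73.TC.Data.CeChk00
import Pool.Agent.helper73.TC.Data.CeChk01
import Pool.Agent.helper73.TC.Data.CeChk02
import Pool.Agent.helper73.TC.Data.CeChk03
import Pool.Agent.helper73.TC.Data.CeChk04
import Pool.Agent.helper73.TC.Data.CeChk05
import Pool.Agent.helper73.TC.Data.CeChk06
import Pool.Agent.helper73.TC.Data.CeChk07
import Pool.Agent.helper73.TC.Data.CeChk08
import Pool.Agent.helper73.TC.Data.CeChk09
import Pool.Agent.helper73.TC.Data.CeChk10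
import Pool.Agent.helper73.TC.Data.CeChk11
import Pool.Agent.helper73.TC.Data.CeChk12
import Pool.Agent.helper73.TC.Data.CeChk13
import Pool.Agent.helper73.TC.Data.CeChk14
import Pool.Agent.helper73.TC.Data.CeChk15

/-!
# Reflection of the cell checks, collected over all cells
-/

set_option autoImplicit false
noncomputable section
namespace Pool.Agent.helper73.TC.B59
open Ce

theorem allN_iff (n : ℕ) (f : ℕ → Bool) : allN n f = true ↔ ∀ i < n, f i = true := by
  induction n with
  | zero => simp [allN]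
  | succ n ih =>
    have e : allN (n + 1) f = @Bool.rec (fun _ => Bool) false (allN n f) (f n) := rfl
    rw [e]
    constructor
    · intro h i hi
      cases hf : f n with
      | false => rw [hf] at h; exact absurd h (by simp)
      | true =>
        rw [hf] at h
        rcases Nat.lt_succ_iff_lt_or_eq.mp hi with h' | rfl
        · exact (ih.mp h) i h'
        · exact hf
    · intro h
      rw [h n (Nat.lt_succ_self n)]
      exact ih.mpr fun i hi => h i (Nat.lt_succ_of_lt hi)

theorem all7_iff (f : ℕ → Bool) : all7 f = true ↔ ∀ i < 7, f i = true := allN_iff 7 f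

theorem rec_true_left {b c : Bool} (h : @Bool.rec (fun _ => Bool) true c b = true) (hb : b = true) :
    c = true := by
  subst hb; exact h

theorem rec_cases {b c d : Bool} (h : @Bool.rec (fun _ => Bool) c d b = true) :
    (b = true ∧ d = true) ∨ (b = false ∧ c = true) := by
  cases b
  · exact Or.inr ⟨rfl, h⟩
  · exact Or.inl ⟨rfl, h⟩

theorem band {b c : Bool} (h : Bool.and b c = true) : b = true ∧ c = true := by
  cases b <;> cases c <;> simp_all

theorem beq' {a b : ℕ} (h : Nat.beq a b = true) : a = b := Nat.eq_of_beq_eq_true h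

theorem blt' {a b : ℕ} (h : Nat.blt a b = true) : a < b := by
  have : Nat.ble (a + 1) b = true := h
  exact Nat.le_of_ble_eq_true this

theorem ble' {a b : ℕ} (h : Nat.ble a b = true) : a ≤ b := Nat.le_of_ble_eq_true h

/-- the cell number `c` -/
def cc (c : ℕ) : Cell := getC cells cell0 c

theorem chkCell_all (c : ℕ) (hc : c < 64) : chkCell tab (cc c) c = true := by
  interval_cases c
  · exact chkCell_0
  · exact chkCell_1
  · exact chkCell_2
  · exact chkCell_3
  · exact chkCell_4
  · exact chkCell_5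
  · exact chkCell_6
  · exact chkCell_7
  · exact chkCell_8
  · exact chkCell_9
  · exact chkCell_10
  · exact chkCell_11
  · exact chkCell_12
  · exact chkCell_13
  · exact chkCell_14
  · exact chkCell_15
  · exact chkCell_16
  · exact chkCell_17
  · exact chkCell_18
  · exact chkCell_19
  · exact chkCell_20
  · exact chkCell_21
  · exact chkCell_22
  · exact chkCell_23
  · exact chkCell_24
  · exact chkCell_25
  · exact chkCell_26
  · exact chkCell_27
  · exact chkCell_28
  · exact chkCell_29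
  · exact chkCell_30
  · exact chkCell_31
  · exact chkCell_32
  · exact chkCell_33
  · exact chkCell_34
  · exact chkCell_35
  · exact chkCell_36
  · exact chkCell_37
  · exact chkCell_38
  · exact chkCell_39
  · exact chkCell_40
  · exact chkCell_41
  · exact chkCell_42
  · exact chkCell_43
  · exact chkCell_44
  · exact chkCell_45
  · exact chkCell_46
  · exact chkCell_47
  · exact chkCell_48
  · exact chkCell_49
  · exact chkCell_50
  · exact chkCell_51
  · exact chkCell_52
  · exact chkCell_53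
  · exact chkCell_54
  · exact chkCell_55
  · exact chkCell_56
  · exact chkCell_57
  · exact chkCell_58
  · exact chkCell_59
  · exact chkCell_60
  · exact chkCell_61
  · exact chkCell_62
  · exact chkCell_63

/-- digit number `i` of the cell number `c` -/
def dig (c i : ℕ) : ℕ := (c / 4 ^ (2 - i)) % 4

/-- number of the `k`-th neighbour of the cell number `c` -/
def nbr (c k : ℕ) : ℕ :=
  (c + (if k % 3 < dig c (k / 3) then k % 3 else k % 3 + 1) * 4 ^ (2 - k / 3)) -
    dig c (k / 3) * 4 ^ (2 - k / 3)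

/-- number of the cell with the first two digits exchanged -/
def im2 (c : ℕ) : ℕ := 16 * dig c 1 + 4 * dig c 0 + dig c 2
/-- number of the cell with the last two digits exchanged -/
def im1 (c : ℕ) : ℕ := 16 * dig c 0 + 4 * dig c 2 + dig c 1

theorem chkNei_all (c : ℕ) (hc : c < 64) :
    chkNei tab (cc c) [cc (nbr c 0), cc (nbr c 1), cc (nbr c 2), cc (nbr c 3), cc (nbr c 4),
      cc (nbr c 5), cc (nbr c 6), cc (nbr c 7), cc (nbr c 8)] (cc (im2 c)) (cc (im1 c)) 2 1 = true := by
  interval_cases c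
  · exact chkNei_0
  · exact chkNei_1
  · exact chkNei_2
  · exact chkNei_3
  · exact chkNei_4
  · exact chkNei_5
  · exact chkNei_6
  · exact chkNei_7
  · exact chkNei_8
  · exact chkNei_9
  · exact chkNei_10
  · exact chkNei_11
  · exact chkNei_12
  · exact chkNei_13
  · exact chkNei_14
  · exact chkNei_15
  · exact chkNei_16
  · exact chkNei_17
  · exact chkNei_18
  · exact chkNei_19
  · exact chkNei_20
  · exact chkNei_21
  · exact chkNei_22
  · exact chkNei_23
  · exact chkNei_24
  · exact chkNei_25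
  · exact chkNei_26
  · exact chkNei_27
  · exact chkNei_28
  · exact chkNei_29
  · exact chkNei_30
  · exact chkNei_31
  · exact chkNei_32
  · exact chkNei_33
  · exact chkNei_34
  · exact chkNei_35
  · exact chkNei_36
  · exact chkNei_37
  · exact chkNei_38
  · exact chkNei_39
  · exact chkNei_40
  · exact chkNei_41
  · exact chkNei_42
  · exact chkNei_43
  · exact chkNei_44
  · exact chkNei_45
  · exact chkNei_46
  · exact chkNei_47
  · exact chkNei_48
  · exact chkNei_49
  · exact chkNei_50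
  · exact chkNei_51
  · exact chkNei_52
  · exact chkNei_53
  · exact chkNei_54
  · exact chkNei_55
  · exact chkNei_56
  · exact chkNei_57
  · exact chkNei_58
  · exact chkNei_59
  · exact chkNei_60
  · exact chkNei_61
  · exact chkNei_62
  · exact chkNei_63

theorem sum_two_pow_lt' (s : Finset ℕ) (a : ℕ) (h : ∀ i ∈ s, i < a) : ∑ i ∈ s, 2 ^ i < 2 ^ a := by
  have h1 : ∑ i ∈ s, 2 ^ i ≤ ∑ i ∈ Finset.range a, 2 ^ i :=
    Finset.sum_le_sum_of_subset (fun i hi => Finset.mem_range.mpr (h i hi))
  have h2 := Nat.geomSum_lt (m := 2) le_rfl (s := Finset.range a) (n := a)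
    (fun k hk => Finset.mem_range.mp hk)
  omega

theorem testBit_sum_two_pow (s : Finset ℕ) (v : ℕ) :
    (∑ i ∈ s, 2 ^ i).testBit v = decide (v ∈ s) := by
  induction s using Finset.induction_on_max with
  | empty => simp
  | insert a s ha ih =>
    have hna : a ∉ s := fun h => lt_irrefl _ (ha a h)
    rw [Finset.sum_insert hna]
    have hlt := sum_two_pow_lt' s a ha
    rcases lt_trichotomy v a with hv | rfl | hv
    · rw [Nat.testBit_two_pow_add_gt hv, ih]
      simp [hv.ne]
    · rw [Nat.testBit_two_pow_add_eq, ih]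
      simp [hna]
    · rw [Nat.testBit_lt_two_pow]
      · have : v ∉ s := fun h => absurd (ha v h) (by omega)
        simp [this, hv.ne']
      · calc 2 ^ a + ∑ i ∈ s, 2 ^ i < 2 ^ a + 2 ^ a := by omega
          _ = 2 ^ (a + 1) := by ring
          _ ≤ 2 ^ v := Nat.pow_le_pow_right (by norm_num) hv

theorem psum_eq (f : ℕ → ℕ) : psum f = ∑ t ∈ Finset.range 7, 2 ^ f t := by
  have e : psum f = ((2 ^ f 0 + 2 ^ f 1) + (2 ^ f 2 + 2 ^ f 3)) + ((2 ^ f 4 + 2 ^ f 5) + 2 ^ f 6) := rfl
  rw [e]
  simp only [Finset.sum_range_succ, Finset.sum_range_zero]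
  ring

theorem psum_testBit (f : ℕ → ℕ) (hf : ∀ s < 7, ∀ t < 7, f s = f t → s = t) (v : ℕ) :
    (psum f).testBit v = true ↔ ∃ t < 7, f t = v := by
  have : ∑ t ∈ Finset.range 7, 2 ^ f t = ∑ x ∈ (Finset.range 7).image f, 2 ^ x := by
    rw [Finset.sum_image]
    intro s hs t ht h
    exact hf s (by simpa using hs) t (by simpa using ht) h
  rw [psum_eq, this, testBit_sum_two_pow]
  simp

/-! ### tables -/

/-- the consequences of `chkTab` for a vertex -/
theorem tab_v (v : ℕ) (hv : v < 124) :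
    (pm tab v = (2 ^ idx tab v 0 ||| 2 ^ idx tab v 1 ||| (2 ^ idx tab v 2 ||| 2 ^ idx tab v 3) |||
      (2 ^ idx tab v 4 ||| 2 ^ idx tab v 5)) ∧ ∀ t < 6, idx tab v t / 4 = t / 2) ∧
    (∀ g < 6, act tab g v < 124 ∧ ∀ h < 6, ∀ k < 6, (∀ i < 3, prm h (prm g i) = prm k i) →
      act tab g (act tab h v) = act tab k v) ∧ act tab 0 v = v := by
  have h := (allN_iff 124 _).mp chkTab_ok v hv
  obtain ⟨h1, h2⟩ := band h
  obtain ⟨h11, h12⟩ := band h1
  obtain ⟨h21, h22⟩ := band h2
  obtain ⟨h31, -⟩ := band h22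
  refine ⟨⟨beq' h11, fun t ht => beq' ((allN_iff 6 _).mp h12 t ht)⟩, ?_, beq' h31⟩
  intro g hg
  have hg' := (allN_iff 6 _).mp h21 g hg
  obtain ⟨a1, a2⟩ := band hg'
  obtain ⟨a3, a4⟩ := band a2
  obtain ⟨a5, a6⟩ := band a4
  refine ⟨blt' a1, ?_⟩
  intro h hh k hk hi
  have b := (allN_iff 6 _).mp ((allN_iff 6 _).mp a6 h hh) k hk
  have c : (allN 3 fun i => Nat.beq (prm h (prm g i)) (prm k i)) = true :=
    (allN_iff 3 _).mpr fun i hi' => by rw [hi i hi']; exact Nat.beq_refl _
  exact beq' (rec_true_left b c)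

theorem pm_bits (v : ℕ) (hv : v < 124) (j : ℕ) :
    (pm tab v).testBit j = true ↔ ∃ t < 6, idx tab v t = j := by
  rw [(tab_v v hv).1.1]
  simp only [Nat.testBit_or, Nat.testBit_two_pow, Bool.or_eq_true, decide_eq_true_eq]
  constructor
  · rintro (((h | h) | (h | h)) | (h | h))
    · exact ⟨0, by norm_num, h⟩
    · exact ⟨1, by norm_num, h⟩
    · exact ⟨2, by norm_num, h⟩
    · exact ⟨3, by norm_num, h⟩
    · exact ⟨4, by norm_num, h⟩
    · exact ⟨5, by norm_num, h⟩
  · rintro ⟨t, ht, h⟩
    generalize idx tab v = f at h ⊢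
    interval_cases t <;> simp [h]

/-- positivity of the coordinates of a vertex -/
theorem PP_pos_iff (v : Fin 124) (i : Fin 3) (j : Fin 4) :
    0 < PP v i j ↔ (pm tab v).testBit (4 * i + j) = true := by
  have hd := (tab_v v v.2).1.2
  have e1 := hd (2 * (i : ℕ)) (by omega)
  have e2 := hd (2 * (i : ℕ) + 1) (by omega)
  rw [pm_bits v v.2]
  have key : (∃ t < 6, idx tab v t = 4 * (i : ℕ) + j) ↔
      (idx tab v (2 * (i : ℕ)) = 4 * i + j ∨ idx tab v (2 * (i : ℕ) + 1) = 4 * i + j) := by
    constructor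
    · rintro ⟨t, ht, h⟩
      have e := hd t ht
      rw [h] at e
      have : t = 2 * (i : ℕ) ∨ t = 2 * (i : ℕ) + 1 := by omega
      rcases this with rfl | rfl
      · exact Or.inl h
      · exact Or.inr h
    · rintro (h | h)
      · exact ⟨_, by omega, h⟩
      · exact ⟨_, by omega, h⟩
  rw [key]
  unfold PP
  generalize idx tab v = f
  by_cases h1 : f (2 * (i : ℕ)) = 4 * i + j <;>
    by_cases h2 : f (2 * (i : ℕ) + 1) = 4 * i + j <;> simp [h1, h2]

theorem PP_nonneg' (v : Fin 124) (i : Fin 3) (j : Fin 4) : 0 ≤ PP v i j := by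
  unfold PP
  generalize idx tab v = f
  by_cases h1 : f (2 * (i : ℕ)) = 4 * i + j <;>
    by_cases h2 : f (2 * (i : ℕ) + 1) = 4 * i + j <;> simp [h1, h2]

theorem PP_zero_iff (v : Fin 124) (i : Fin 3) (j : Fin 4) :
    PP v i j = 0 ↔ (pm tab v).testBit (4 * i + j) = false := by
  rw [← Bool.not_eq_true, ← PP_pos_iff, not_lt]
  exact ⟨fun h => h.le, fun h => le_antisymm h (PP_nonneg' v i j)⟩

theorem cnum_lt (o : Fin 3 → Fin 4) : cnum o < 64 := by
  unfold cnum; omega

theorem obits_bits1 : ∀ o : Fin 3 → Fin 4, ∀ i : Fin 3,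
    (obits (cnum o)).testBit (4 * (i : ℕ) + (o i : ℕ)) = true := by decide +kernel

theorem obits_bits2 : ∀ o : Fin 3 → Fin 4, ∀ j < 12, (obits (cnum o)).testBit j = true →
    ∃ i : Fin 3, j = 4 * (i : ℕ) + (o i : ℕ) := by decide +kernel

theorem obits_lt : ∀ o : Fin 3 → Fin 4, obits (cnum o) < 2 ^ 12 := by decide +kernel

theorem obits_bits (o : Fin 3 → Fin 4) (j : ℕ) (h : (obits (cnum o)).testBit j = true) :
    ∃ i : Fin 3, j = 4 * (i : ℕ) + (o i : ℕ) := by
  refine obits_bits2 o j ?_ h
  by_contra hj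
  push Not at hj
  have := Nat.testBit_lt_two_pow (lt_of_lt_of_le (obits_lt o) (Nat.pow_le_pow_right (by norm_num) hj))
  rw [this] at h
  exact absurd h (by simp)

theorem land_zero_iff (v : Fin 124) (o : Fin 3 → Fin 4) :
    Nat.land (pm tab v) (obits (cnum o)) = 0 ↔ ∀ i, PP v i (o i) = 0 := by
  constructor
  · intro h i
    rw [PP_zero_iff]
    have e : (pm tab v &&& obits (cnum o)).testBit (4 * (i : ℕ) + (o i : ℕ)) = false := by
      have : pm tab v &&& obits (cnum o) = 0 := h
      rw [this]; simp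
    rw [Nat.testBit_and, obits_bits1 o i, Bool.and_true] at e
    exact e
  · intro h
    refine Nat.eq_of_testBit_eq fun j => ?_
    show (pm tab v &&& obits (cnum o)).testBit j = _
    rw [Nat.testBit_and, Nat.zero_testBit]
    by_cases hj : (obits (cnum o)).testBit j = true
    · obtain ⟨i, rfl⟩ := obits_bits o j hj
      have := (PP_zero_iff v i (o i)).mp (h i)
      rw [this]; simp
    · simp only [Bool.not_eq_true] at hj
      rw [hj]; simp

/-! ### cells -/

theorem cell_pos (c : ℕ) (hc : c < 64) : 0 < (cc c).n :=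
  blt' (band (band (chkCell_all c hc)).2).1

theorem cell_V (c : ℕ) (hc : c < 64) (v : ℕ) (hv : v < 124) (h : Nat.land (pm tab v) (obits c) = 0) :
    Nat.testBit (cc c).VM v = true ∧ List.elem v (cc c).VL = true := by
  have h1 := (allN_iff 124 _).mp (band (chkCell_all c hc)).1 v hv
  exact band (rec_true_left h1 (by rw [h]; rfl))

theorem cell_i (c : ℕ) (hc : c < 64) (i : ℕ) (hi : i < (cc c).n) :
    chkF tab (cc c) c i = true ∧ chkH tab (cc c) i = true ∧ chkR tab (cc c) i = true := by
  have h1 := (allN_iff _ _).mp (band (band (chkCell_all c hc)).2).2 i hi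
  obtain ⟨a, b⟩ := band h1
  obtain ⟨b1, b2⟩ := band b
  obtain ⟨c1, c2⟩ := band b2
  exact ⟨a, b1, c1⟩

theorem cell_F (c : ℕ) (hc : c < 64) (i : ℕ) (hi : i < (cc c).n) :
    fac (cc c) i = psum (vtx (cc c) i) ∧ (∀ t < 6, vtx (cc c) i t < vtx (cc c) i (t + 1)) ∧
      vtx (cc c) i 6 < 124 ∧ ∀ t < 7, Nat.land (pm tab (vtx (cc c) i t)) (obits c) = 0 := by
  obtain ⟨a, b⟩ := band (cell_i c hc i hi).1
  obtain ⟨b1, b2⟩ := band b
  obtain ⟨c1, c2⟩ := band b2
  exact ⟨beq' a, fun t ht => blt' ((allN_iff 6 _).mp b1 t ht), blt' c1,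
    fun t ht => beq' ((all7_iff _).mp c2 t ht)⟩

theorem vtx_mono (c : ℕ) (hc : c < 64) (i : ℕ) (hi : i < (cc c).n) (s t : ℕ) (hst : s < t) (ht : t < 7) :
    vtx (cc c) i s < vtx (cc c) i t := by
  have h := (cell_F c hc i hi).2.1
  induction t with
  | zero => omega
  | succ t ih =>
    have h1 := h t (by omega)
    rcases Nat.lt_succ_iff_lt_or_eq.mp hst with h' | rfl
    · exact (ih h' (by omega)).trans h1
    · exact h1

theorem vtx_lt (c : ℕ) (hc : c < 64) (i : ℕ) (hi : i < (cc c).n) (t : ℕ) (ht : t < 7) :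
    vtx (cc c) i t < 124 := by
  have h6 := (cell_F c hc i hi).2.2.1
  rcases Nat.lt_or_ge t 6 with h | h
  · exact (vtx_mono c hc i hi t 6 h (by norm_num)).trans h6
  · have : t = 6 := by omega
    rw [this]; exact h6

theorem vtx_inj (c : ℕ) (hc : c < 64) (i : ℕ) (hi : i < (cc c).n) :
    ∀ s < 7, ∀ t < 7, vtx (cc c) i s = vtx (cc c) i t → s = t := by
  intro s hs t ht h
  rcases lt_trichotomy s t with h1 | h1 | h1
  · exact absurd h (vtx_mono c hc i hi s t h1 ht).ne
  · exact h1
  · exact absurd h.symm (vtx_mono c hc i hi t s h1 hs).ne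

theorem fac_bits (c : ℕ) (hc : c < 64) (i : ℕ) (hi : i < (cc c).n) (v : ℕ) :
    (fac (cc c) i).testBit v = true ↔ ∃ t < 7, vtx (cc c) i t = v := by
  rw [(cell_F c hc i hi).1]
  exact psum_testBit _ (vtx_inj c hc i hi) v

theorem mem_fset (m : ℕ) (v : Fin 124) : v ∈ fset m ↔ m.testBit v = true := by
  simp [fset]

theorem mem_TT (o : Fin 3 → Fin 4) (σ : Finset (Fin 124)) :
    σ ∈ TT o ↔ ∃ i < (cc (cnum o)).n, fset (fac (cc (cnum o)) i) = σ := by
  simp [TT, cellAt, cc]

theorem TT_cell' (o : Fin 3 → Fin 4) (σ : Finset (Fin 124)) (hσ : σ ∈ TT o) (v : Fin 124) (hv : v ∈ σ)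
    (i : Fin 3) : PP v i (o i) = 0 := by
  obtain ⟨a, ha, rfl⟩ := (mem_TT o σ).mp hσ
  rw [mem_fset, fac_bits _ (cnum_lt o) a ha] at hv
  obtain ⟨t, ht, h⟩ := hv
  have := (cell_F _ (cnum_lt o) a ha).2.2.2 t ht
  rw [h] at this
  exact (land_zero_iff v o).mp this i

end Pool.Agent.helper73.TC.B59
end
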