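import Pool.Agent.helper59.TC.Base
import Pool.Agent.helper19.TC.G1

/-!
# TX-G5: every point of a cell has unique coordinates
-/

set_option autoImplicit false
noncomputable section
namespace Pool.Agent.helper73.TC
open Ce B59

namespace B59

/-- picking the coordinate `a` in row `i` -/
theorem sum_pick (F : ℕ → ℝ) (a i : ℕ) (h : a / 4 = i) :
    ∑ j : Fin 4, F (4 * i + (j : ℕ)) * (if a = 4 * i + (j : ℕ) then 1 else 0) = F a := by
  obtain ⟨r, hr, rfl⟩ : ∃ r < 4, a = 4 * i + r := ⟨a % 4, Nat.mod_lt _ (by norm_num), by omega⟩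
  rw [Fin.sum_univ_four]
  interval_cases r <;> simp

theorem row_sum (F : ℕ → ℝ) (v : Fin 124) (i : Fin 3) :
    ∑ j : Fin 4, F (4 * (i : ℕ) + (j : ℕ)) * PP v i j =
      (F (idx tab v (2 * (i : ℕ))) + F (idx tab v (2 * (i : ℕ) + 1))) / 2 := by
  have hd := (tab_v v v.2).1.2
  have e1 : idx tab v (2 * (i : ℕ)) / 4 = i := by rw [hd _ (by omega)]; omega
  have e2 : idx tab v (2 * (i : ℕ) + 1) / 4 = i := by rw [hd _ (by omega)]; omega
  rw [← sum_pick F _ i e1, ← sum_pick F _ i e2, ← Finset.sum_add_distrib, Finset.sum_div]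
  refine Finset.sum_congr rfl fun j _ => ?_
  unfold PP
  ring

theorem coef_sum (C : Cell) (a : ℕ) (v : Fin 124) :
    ∑ i : Fin 3, ∑ j : Fin 4, (coef C a (4 * (i : ℕ) + (j : ℕ)) : ℝ) * PP v i j =
      (val tab C a v : ℝ) / 2 := by
  have h := fun i : Fin 3 => row_sum (fun k => (coef C a k : ℝ)) v i
  rw [Finset.sum_congr rfl fun i _ => h i, Fin.sum_univ_three]
  have e : val tab C a v = ((coef C a (idx tab v 0) + coef C a (idx tab v 1)) +
    (coef C a (idx tab v 2) + coef C a (idx tab v 3))) +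
    (coef C a (idx tab v 4) + coef C a (idx tab v 5)) := rfl
  rw [e]
  simp only [Fin.val_zero, Fin.val_one, Fin.val_two, Nat.mul_zero, Nat.zero_add, Nat.mul_one]
  generalize idx tab v = f
  generalize coef C a = g
  push_cast
  ring

/-- reading the check of the supporting function -/
theorem cell_H (c : ℕ) (hc : c < 64) (i : ℕ) (hi : i < (cc c).n) (v : ℕ) (hv : v ∈ (cc c).VL) :
    ((fac (cc c) i).testBit v = true → val tab (cc c) i v = ent (cc c).HT 8 v) ∧
    ((fac (cc c) i).testBit v = false → val tab (cc c) i v < ent (cc c).HT 8 v) := by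
  have h := (cell_i c hc i hi).2.1
  unfold chkH at h
  generalize (cc c).VL = L at h hv
  induction L with
  | nil => simp at hv
  | cons w L ih =>
    rcases rec_cases h with ⟨h1, h2⟩ | ⟨-, h2⟩
    · rcases List.mem_cons.mp hv with rfl | hv'
      · rcases rec_cases h1 with ⟨h3, h4⟩ | ⟨h3, h4⟩
        · exact ⟨fun _ => beq' h4, fun h5 => by
            exfalso
            have : (fac (cc c) i).testBit v = true := h3
            rw [h5] at this
            exact absurd this (by simp)⟩
        · exact ⟨fun h5 => by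
            exfalso
            have : (fac (cc c) i).testBit v = false := h3
            rw [h5] at this
            exact absurd this (by simp), fun _ => blt' h4⟩
      · exact ih h2 hv'
    · exact absurd h2 (by simp)

theorem fset_card (c : ℕ) (hc : c < 64) (i : ℕ) (hi : i < (cc c).n) :
    (fset (fac (cc c) i)).card = 7 := by
  have e : fset (fac (cc c) i) =
      (Finset.univ : Finset (Fin 7)).image fun t => ⟨vtx (cc c) i t, vtx_lt c hc i hi t t.2⟩ := by
    ext v
    rw [mem_fset, fac_bits c hc i hi, Finset.mem_image]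
    constructor
    · rintro ⟨t, ht, h⟩
      exact ⟨⟨t, ht⟩, Finset.mem_univ _, Fin.ext h⟩
    · rintro ⟨t, -, h⟩
      exact ⟨t, t.2, congrArg Fin.val h⟩
  rw [e, Finset.card_image_of_injective, Finset.card_univ, Fintype.card_fin]
  intro s t h
  exact Fin.ext (vtx_inj c hc i hi s s.2 t t.2 (congrArg Fin.val h))

/-- reading the ridge check -/
theorem cell_R (o : Fin 3 → Fin 4) (a : ℕ) (ha : a < (cc (cnum o)).n) (w : Fin 124)
    (hw : w ∈ fset (fac (cc (cnum o)) a)) :
    (∃ i j, (∀ v ∈ fset (fac (cc (cnum o)) a), v ≠ w → PP v i j = 0) ∧ 0 < PP w i j) ∨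
      ∃ τ ∈ TT o, (fset (fac (cc (cnum o)) a)).erase w ⊆ τ ∧ w ∉ τ := by
  have hc := cnum_lt o
  generalize hcn : cnum o = c at hc ha hw
  rw [mem_fset, fac_bits c hc a ha] at hw
  obtain ⟨t, ht, hwt⟩ := hw
  have h := (all7_iff _).mp (cell_i c hc a ha).2.2 t ht
  rcases rec_cases h with ⟨h1, h2⟩ | ⟨-, h2⟩
  · left
    have hnb := blt' h1
    generalize ent (cc c).NB 8 (Nat.add (Nat.mul 7 a) t) = nb at h2 hnb
    have hnbe : 4 * (nb / 4) + nb % 4 = nb := Nat.div_add_mod nb 4
    refine ⟨⟨nb / 4, by omega⟩, ⟨nb % 4, Nat.mod_lt _ (by norm_num)⟩, ?_, ?_⟩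
    · intro v hv hvw
      rw [mem_fset, fac_bits c hc a ha] at hv
      obtain ⟨s, hs, hvs⟩ := hv
      rw [PP_zero_iff]
      show (pm tab v).testBit (4 * (nb / 4) + nb % 4) = false
      rw [hnbe, ← hvs]
      rcases rec_cases ((all7_iff _).mp h2 s hs) with ⟨h3, -⟩ | ⟨-, h4⟩
      · exfalso
        have := beq' h3
        subst this
        exact hvw (Fin.ext (hvs.symm.trans hwt))
      · have h5 : Bool.not (Nat.testBit (pm tab (vtx (cc c) a s)) nb) = true := h4
        cases h6 : Nat.testBit (pm tab (vtx (cc c) a s)) nb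
        · rfl
        · rw [h6] at h5; exact absurd h5 (by simp)
    · rw [PP_pos_iff]
      show (pm tab w).testBit (4 * (nb / 4) + nb % 4) = true
      rw [hnbe, ← hwt]
      rcases rec_cases ((all7_iff _).mp h2 t ht) with ⟨-, h3⟩ | ⟨h3, -⟩
      · exact h3
      · have : Nat.beq t t = true := Nat.beq_refl t
        rw [h3] at this
        exact absurd this (by simp)
  · right
    obtain ⟨h3, h4⟩ := band h2
    have h3' := blt' h3
    have h4' := beq' h4
    generalize Nat.sub (ent (cc c).NB 8 (Nat.add (Nat.mul 7 a) t)) 16 = b at h3' h4'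
    have hbit : ∀ v, ((fac (cc c) b).testBit v && (fac (cc c) a).testBit v) =
        ((fac (cc c) a).testBit v ^^ decide (vtx (cc c) a t = v)) := by
      intro v
      have e := congrArg (fun m => Nat.testBit m v) h4'
      change (fac (cc c) b &&& fac (cc c) a).testBit v =
        (fac (cc c) a ^^^ 2 ^ (vtx (cc c) a t)).testBit v at e
      rw [Nat.testBit_and, Nat.testBit_xor, Nat.testBit_two_pow] at e
      exact e
    refine ⟨fset (fac (cc c) b), (mem_TT o _).mpr ⟨b, by rw [hcn]; exact h3', by rw [hcn]⟩, ?_, ?_⟩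
    · intro v hv
      obtain ⟨hvw, hv⟩ := Finset.mem_erase.mp hv
      rw [mem_fset] at hv ⊢
      have e := hbit v
      have hne : ¬ vtx (cc c) a t = v := fun h => hvw (Fin.ext (h.symm.trans hwt))
      rw [hv, Bool.and_true, decide_eq_false hne] at e
      rw [e]; rfl
    · intro hwτ
      rw [mem_fset] at hwτ
      have e := hbit w
      have hwa : (fac (cc c) a).testBit w = true := (fac_bits c hc a ha w).mpr ⟨t, ht, hwt⟩
      rw [hwτ, hwa, decide_eq_true hwt] at e
      exact absurd e (by decide)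

end B59

theorem TT_cell (o : Fin 3 → Fin 4) (σ : Finset (Fin 124)) (hσ : σ ∈ TT o) (v : Fin 124) (hv : v ∈ σ)
    (i : Fin 3) : PP v i (o i) = 0 := TT_cell' o σ hσ v hv i

theorem TT_bij (o : Fin 3 → Fin 4) : CellBij PP o (TT o) := by
  have hc := cnum_lt o
  have hch : ∀ σ ∈ TT o, ∃ a, a < (cc (cnum o)).n ∧ fset (fac (cc (cnum o)) a) = σ := by
    intro σ hσ
    obtain ⟨a, ha, h⟩ := (mem_TT o σ).mp hσ
    exact ⟨a, ha, h⟩
  choose! a ha hfa using hch
  have hPsum : ∀ v i, ∑ j, PP v i j = 1 := by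
    intro v i
    have := row_sum (fun _ => (1 : ℝ)) v i
    simp only [one_mul] at this
    rw [this]
    norm_num
  refine cell_lemma PP PP_nonneg' hPsum o (TT o)
    ⟨_, (mem_TT o _).mpr ⟨0, cell_pos _ hc, rfl⟩⟩
    (fun v => (ent (cc (cnum o)).HT 8 v : ℝ) / 2)
    (fun σ i j => (coef (cc (cnum o)) (a σ) (4 * (i : ℕ) + (j : ℕ)) : ℝ)) ?_
    (fun σ hσ v hv i => TT_cell o σ hσ v hv i) ?_ ?_ ?_
  · intro σ hσ
    rw [← hfa σ hσ]
    exact fset_card _ hc _ (ha σ hσ)
  · intro σ hσ v hv
    have hv0 : ∀ i, PP v i (o i) = 0 := fun i => TT_cell o σ hσ v hv i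
    have hVL := (cell_V _ hc v v.2 ((land_zero_iff v o).mpr hv0)).2
    have hmem : (v : ℕ) ∈ (cc (cnum o)).VL := List.elem_iff.mp hVL
    have hbit : (fac (cc (cnum o)) (a σ)).testBit v = true := by
      rw [← mem_fset, hfa σ hσ]; exact hv
    rw [coef_sum, (cell_H _ hc _ (ha σ hσ) v hmem).1 hbit]
  · intro σ hσ v hv hv0
    have hVL := (cell_V _ hc v v.2 ((land_zero_iff v o).mpr hv0)).2
    have hmem : (v : ℕ) ∈ (cc (cnum o)).VL := List.elem_iff.mp hVL
    have hbit : (fac (cc (cnum o)) (a σ)).testBit v = false := by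
      rw [← Bool.not_eq_true, ← mem_fset, hfa σ hσ]; exact hv
    have := (cell_H _ hc _ (ha σ hσ) v hmem).2 hbit
    rw [coef_sum]
    have h2 : (val tab (cc (cnum o)) (a σ) v : ℝ) < (ent (cc (cnum o)).HT 8 v : ℝ) :=
      Nat.cast_lt.mpr this
    linarith
  · intro σ hσ w hw
    have h := cell_R o (a σ) (ha σ hσ) w (by rw [hfa σ hσ]; exact hw)
    rw [hfa σ hσ] at h
    exact h

end Pool.Agent.helper73.TC
end
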