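import Pool.Agent.helper59.TC.Base

/-!
# TX-G6: neighbouring cells and invariance under the symmetric group
-/

set_option autoImplicit false
noncomputable section
namespace Pool.Agent.helper73.TC
open Ce B59

namespace B59

/-- the recursion over the list of neighbours -/
theorem listrec (C : Cell) (Ds : List Cell) : ∀ k : ℕ,
    (@List.rec Cell (fun _ => Nat → Bool) (fun _ => true)
      (fun D _ ih k => @Bool.rec (fun _ => Bool) false (ih (Nat.succ k))
        (allN C.n fun i => chkC C D k i)) Ds k) = true →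
    ∀ (j : ℕ) (hj : j < Ds.length), ∀ i < C.n, chkC C Ds[j] (k + j) i = true := by
  induction Ds with
  | nil => intro k _ j hj; simp at hj
  | cons D Ds ih =>
    intro k h j hj i hi
    rcases rec_cases h with ⟨h1, h2⟩ | ⟨-, h2⟩
    · cases j with
      | zero => exact (allN_iff _ _).mp h1 i hi
      | succ j =>
        have := ih (Nat.succ k) h2 j (by simpa using hj) i hi
        rw [show k + (j + 1) = Nat.succ k + j by omega]
        exact this
    · exact absurd h2 (by simp)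

theorem nei_C (c : ℕ) (hc : c < 64) (k : ℕ) (hk : k < 9) (i : ℕ) (hi : i < (cc c).n) :
    chkC (cc c) (cc (nbr c k)) k i = true := by
  have h := listrec (cc c) [cc (nbr c 0), cc (nbr c 1), cc (nbr c 2), cc (nbr c 3), cc (nbr c 4),
    cc (nbr c 5), cc (nbr c 6), cc (nbr c 7), cc (nbr c 8)] 0 (band (chkNei_all c hc)).2 k hk i hi
  rw [Nat.zero_add] at h
  interval_cases k <;> exact h

theorem nei_I (c : ℕ) (hc : c < 64) (i : ℕ) (hi : i < (cc c).n) :
    chkI tab (cc c) (cc (im2 c)) 0 2 i = true ∧ chkI tab (cc c) (cc (im1 c)) 1 1 i = true := by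
  obtain ⟨a, b⟩ := band (band (chkNei_all c hc)).1
  exact ⟨(allN_iff _ _).mp a i hi, (allN_iff _ _).mp b i hi⟩

theorem nbr_eq : ∀ (o : Fin 3 → Fin 4) (i : Fin 3) (e : Fin 4), e ≠ o i →
    nbr (cnum o) (3 * (i : ℕ) + if e < o i then (e : ℕ) else (e : ℕ) - 1) =
      cnum (Function.update o i e) := by decide +kernel

theorem im_eq : ∀ (o : Fin 3 → Fin 4), im2 (cnum o) = cnum ![o 1, o 0, o 2] ∧
    im1 (cnum o) = cnum ![o 0, o 2, o 1] := by decide +kernel

theorem act_inv (g : ℕ) (hg : g = 1 ∨ g = 2) (v : ℕ) (hv : v < 124) : act tab g (act tab g v) = v := by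
  have h := (tab_v v hv).2.1 g (by omega)
  rw [h.2 g (by omega) 0 (by omega) ?_, (tab_v v hv).2.2]
  rcases hg with rfl | rfl <;> decide

/-- a generator maps facets of a cell to facets of the image cell -/
theorem gen_step (g : ℕ) (hg : g = 1 ∨ g = 2) (c d : ℕ) (hc : c < 64) (k : ℕ)
    (h : ∀ i < (cc c).n, chkI tab (cc c) (cc d) k g i = true) (i : ℕ) (hi : i < (cc c).n) :
    ∃ j < (cc d).n, ∀ v, (fac (cc c) i).testBit v = true →
      (fac (cc d) j).testBit (act tab g v) = true := by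
  obtain ⟨a, b⟩ := band (h i hi)
  refine ⟨_, blt' a, ?_⟩
  intro v hv
  obtain ⟨t, ht, rfl⟩ := (fac_bits c hc i hi v).mp hv
  rw [← beq' b, psum_testBit]
  · exact ⟨t, ht, rfl⟩
  · intro s hs t ht hst
    have := congrArg (act tab g) hst
    rw [act_inv g hg _ (vtx_lt c hc i hi s hs), act_inv g hg _ (vtx_lt c hc i hi t ht)] at this
    exact vtx_inj c hc i hi s hs t ht this

theorem pnum_lt (g : Equiv.Perm (Fin 3)) : pnum g < 6 := by
  unfold pnum; split_ifs <;> norm_num

theorem prm_pnum : ∀ (g : Equiv.Perm (Fin 3)) (i : Fin 3), prm (pnum g) i = (g i : ℕ) := by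
  decide +kernel

theorem rho_val (g : Equiv.Perm (Fin 3)) (v : Fin 124) : (rho g v : ℕ) = act tab (pnum g) v := by
  have h := ((tab_v v v.2).2.1 (pnum g) (pnum_lt g)).1
  show act tab (pnum g) v % 124 = _
  exact Nat.mod_eq_of_lt h

theorem rho_comp (g h : Equiv.Perm (Fin 3)) (v : Fin 124) : rho g (rho h v) = rho (h * g) v := by
  apply Fin.ext
  rw [rho_val, rho_val, rho_val]
  refine ((tab_v v v.2).2.1 (pnum g) (pnum_lt g)).2 (pnum h) (pnum_lt h) (pnum (h * g))
    (pnum_lt _) ?_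
  intro i hi
  have e1 : prm (pnum g) i = (g ⟨i, hi⟩ : ℕ) := prm_pnum g ⟨i, hi⟩
  have e2 := prm_pnum h (g ⟨i, hi⟩)
  have e3 : prm (pnum (h * g)) i = ((h * g) ⟨i, hi⟩ : ℕ) := prm_pnum (h * g) ⟨i, hi⟩
  rw [e1, e2, e3]
  rfl

theorem rho_one (v : Fin 124) : rho 1 v = v := by
  apply Fin.ext
  rw [rho_val]
  exact (tab_v v v.2).2.2

/-- invariance for a generator -/
theorem inv_gen (g : Equiv.Perm (Fin 3)) (hg : pnum g = 1 ∨ pnum g = 2) (s : Finset (Fin 124))
    (hs : s ∈ CX TT) : s.image (rho g) ∈ CX TT := by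
  obtain ⟨o, σ, hσ, hs⟩ := hs
  obtain ⟨a, ha, rfl⟩ := (mem_TT o σ).mp hσ
  have key : ∃ (o' : Fin 3 → Fin 4) (j : ℕ), j < (cc (cnum o')).n ∧
      ∀ v, (fac (cc (cnum o)) a).testBit v = true →
        (fac (cc (cnum o')) j).testBit (act tab (pnum g) v) = true := by
    rcases hg with hg | hg
    · obtain ⟨j, hj, h⟩ := gen_step 1 (Or.inl rfl) (cnum o) (im1 (cnum o)) (cnum_lt o) 1
        (fun i hi => (nei_I _ (cnum_lt o) i hi).2) a ha
      rw [(im_eq o).2] at hj h
      exact ⟨_, j, hj, by rw [hg]; exact h⟩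
    · obtain ⟨j, hj, h⟩ := gen_step 2 (Or.inr rfl) (cnum o) (im2 (cnum o)) (cnum_lt o) 0
        (fun i hi => (nei_I _ (cnum_lt o) i hi).1) a ha
      rw [(im_eq o).1] at hj h
      exact ⟨_, j, hj, by rw [hg]; exact h⟩
  obtain ⟨o', j, hj, h⟩ := key
  refine ⟨o', fset (fac (cc (cnum o')) j), (mem_TT o' _).mpr ⟨j, hj, rfl⟩, ?_⟩
  intro w hw
  obtain ⟨v, hv, rfl⟩ := Finset.mem_image.mp hw
  rw [mem_fset, rho_val]
  exact h v ((mem_fset _ v).mp (hs hv))

theorem perm_gen : ∀ g : Equiv.Perm (Fin 3), g = 1 ∨ g = Equiv.swap 1 2 ∨ g = Equiv.swap 0 1 ∨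
    g = Equiv.swap 0 1 * Equiv.swap 1 2 ∨ g = Equiv.swap 1 2 * Equiv.swap 0 1 ∨
    g = Equiv.swap 1 2 * (Equiv.swap 0 1 * Equiv.swap 1 2) := by decide +kernel

end B59

theorem TT_compat (o o' : Fin 3 → Fin 4) (h : ∃ i, ∀ k, k ≠ i → o k = o' k) (σ : Finset (Fin 124))
    (hσ : σ ∈ TT o) : ∃ τ ∈ TT o', ∀ v ∈ σ, (∀ i, PP v i (o' i) = 0) → v ∈ τ := by
  obtain ⟨i, hi⟩ := h
  by_cases hoi : o' i = o i
  · have : o = o' := by
      funext k
      by_cases hk : k = i
      · rw [hk, hoi]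
      · exact hi k hk
    subst this
    exact ⟨σ, hσ, fun v hv _ => hv⟩
  have hup : Function.update o i (o' i) = o' := by
    funext k
    by_cases hk : k = i
    · subst hk; simp
    · rw [Function.update_of_ne hk, hi k hk]
  obtain ⟨a, ha, rfl⟩ := (mem_TT o σ).mp hσ
  have hn := nbr_eq o i (o' i) hoi
  rw [hup] at hn
  have hk9 : 3 * (i : ℕ) + (if o' i < o i then (o' i : ℕ) else (o' i : ℕ) - 1) < 9 := by
    have h1 := i.2
    have h2 := (o' i).2
    have h3 := (o i).2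
    split_ifs with h4
    · have h5 : (o' i : ℕ) < (o i : ℕ) := h4
      omega
    · have : (o' i : ℕ) - 1 < 3 := by omega
      omega
  have hC := nei_C (cnum o) (cnum_lt o) _ hk9 a ha
  rw [hn] at hC
  obtain ⟨b1, b2⟩ := band hC
  refine ⟨_, (mem_TT o' _).mpr ⟨_, blt' b1, rfl⟩, ?_⟩
  intro v hv hv'
  have hVM := (cell_V (cnum o') (cnum_lt o') v v.2 ((land_zero_iff v o').mpr hv')).1
  rw [mem_fset] at hv ⊢
  have e := beq' b2
  have e' := congrArg (fun m => Nat.testBit m v) e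
  change ((fac (cc (cnum o)) a &&& (cc (cnum o')).VM) &&& fac (cc (cnum o')) _).testBit v =
    (fac (cc (cnum o)) a &&& (cc (cnum o')).VM).testBit v at e'
  rw [Nat.testBit_and, Nat.testBit_and, hv, hVM, Bool.and_true, Bool.true_and] at e'
  exact e'

theorem TT_inv (g : Equiv.Perm (Fin 3)) (s : Finset (Fin 124)) (hs : s ∈ CX TT) :
    s.image (rho g) ∈ CX TT := by
  have h1 : ∀ s ∈ CX TT, s.image (rho (Equiv.swap 1 2)) ∈ CX TT :=
    fun s hs => inv_gen _ (by decide +kernel) s hs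
  have h2 : ∀ s ∈ CX TT, s.image (rho (Equiv.swap 0 1)) ∈ CX TT :=
    fun s hs => inv_gen _ (by decide +kernel) s hs
  have hm : ∀ a b : Equiv.Perm (Fin 3), (∀ s ∈ CX TT, s.image (rho a) ∈ CX TT) →
      (∀ s ∈ CX TT, s.image (rho b) ∈ CX TT) → ∀ s ∈ CX TT, s.image (rho (a * b)) ∈ CX TT := by
    intro a b ha hb s hs
    have e : s.image (rho (a * b)) = (s.image (rho a)).image (rho b) := by
      rw [Finset.image_image]
      congr 1
      funext v
      exact (rho_comp b a v).symm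
    rw [e]
    exact hb _ (ha s hs)
  rcases perm_gen g with rfl | rfl | rfl | rfl | rfl | rfl
  · have e : s.image (rho 1) = s := by
      have : rho 1 = id := by funext v; exact rho_one v
      rw [this, Finset.image_id]
    rw [e]; exact hs
  · exact h1 s hs
  · exact h2 s hs
  · exact hm _ _ h2 h1 s hs
  · exact hm _ _ h1 h2 s hs
  · exact hm _ _ h1 (hm _ _ h2 h1) s hs

end Pool.Agent.helper73.TC
end
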