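import Pool.Agent.helper73.TC.YDefs
import Pool.Agent.helper86.TC.R
import Pool.Agent.helper44.TC.Y3
import Pool.Agent.helper19.TC.Y2

/-!
# TY-7: the link facts for all vertices (MP_a50e43_gt)
-/

set_option autoImplicit false
open Topology

noncomputable section
namespace Pool.Agent.helper73.TC

namespace Y7

/-! ### masks of finite sets -/

theorem sum_two_pow_lt' (s : Finset ℕ) (a : ℕ) (h : ∀ i ∈ s, i < a) : ∑ i ∈ s, 2 ^ i < 2 ^ a := by
  have h1 : ∑ i ∈ s, 2 ^ i ≤ ∑ i ∈ Finset.range a, 2 ^ i :=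
    Finset.sum_le_sum_of_subset (fun i hi => Finset.mem_range.mpr (h i hi))
  have h2 := Nat.geomSum_lt (m := 2) le_rfl (s := Finset.range a) (n := a)
    (fun k hk => Finset.mem_range.mp hk)
  omega

theorem testBit_sum_two_pow (s : Finset ℕ) (v : ℕ) :
    (∑ i ∈ s, 2 ^ i).testBit v = decide (v ∈ s) := by
  induction s using Finset.induction_on_max with
  | empty => simp
  | insert a s ha ih =>
    have hna : a ∉ s := fun h => lt_irrefl _ (ha a h)
    rw [Finset.sum_insert hna]
    have hlt := sum_two_pow_lt' s a ha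
    rcases lt_trichotomy v a with hv | rfl | hv
    · rw [Nat.testBit_two_pow_add_gt hv, ih]
      simp [hv.ne]
    · rw [Nat.testBit_two_pow_add_eq, ih]
      simp [hna]
    · rw [Nat.testBit_lt_two_pow]
      · have : v ∉ s := fun h => absurd (ha v h) (by omega)
        simp [this, hv.ne']
      · calc 2 ^ a + ∑ i ∈ s, 2 ^ i < 2 ^ a + 2 ^ a := by omega
          _ = 2 ^ (a + 1) := by ring
          _ ≤ 2 ^ v := Nat.pow_le_pow_right (by norm_num) hv

/-- the bitmask of a set of vertices -/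
def msk (U : Finset (Fin 20)) : ℕ := ∑ i ∈ U.image Fin.val, 2 ^ i

theorem msk_bit (U : Finset (Fin 20)) (j : ℕ) :
    (msk U).testBit j = true ↔ ∃ w ∈ U, w.1 = j := by
  rw [msk, testBit_sum_two_pow]
  simp

theorem msk_bit' (U : Finset (Fin 20)) (w : Fin 20) : (msk U).testBit w.1 = true ↔ w ∈ U := by
  rw [msk_bit]
  constructor
  · rintro ⟨x, hx, h⟩
    rwa [← Fin.ext h]
  · intro h
    exact ⟨w, h, rfl⟩

theorem msk_bit_lt (U : Finset (Fin 20)) (j : ℕ) (hj : j < 20) :
    (msk U).testBit j = true ↔ (⟨j, hj⟩ : Fin 20) ∈ U := msk_bit' U ⟨j, hj⟩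

theorem msk_bit_ge (U : Finset (Fin 20)) (j : ℕ) (hj : 20 ≤ j) : (msk U).testBit j = false := by
  rw [← Bool.not_eq_true, msk_bit]
  rintro ⟨w, -, h⟩
  omega

theorem msk_lt (U : Finset (Fin 20)) : msk U < 1048576 := by
  have : msk U < 2 ^ 20 := sum_two_pow_lt' _ 20 (by
    intro i hi
    obtain ⟨w, -, rfl⟩ := Finset.mem_image.mp hi
    exact w.2)
  simpa using this

theorem bit_false {m j : ℕ} : m.testBit j = false ↔ ¬ m.testBit j = true := by simp

/-- a mask is determined by its bits below 20 -/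
theorem eq_of_bits {m m' : ℕ} (h1 : ∀ j, 20 ≤ j → m.testBit j = false)
    (h2 : ∀ j, 20 ≤ j → m'.testBit j = false)
    (h : ∀ j, j < 20 → (m.testBit j = true ↔ m'.testBit j = true)) : m = m' := by
  refine Nat.eq_of_testBit_eq fun j => ?_
  rcases Nat.lt_or_ge j 20 with hj | hj
  · rw [Bool.eq_iff_iff]
    exact h j hj
  · rw [h1 j hj, h2 j hj]

/-! ### the link as a link in a complex given by nonfaces -/

theorem xor_one_even (i : ℕ) : Nat.xor (2 * i) 1 = 2 * i + 1 := by
  show 2 * i ^^^ 1 = 2 * i + 1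
  refine Nat.eq_of_testBit_eq fun j => ?_
  rw [Nat.testBit_xor]
  cases j with
  | zero => simp
  | succ j =>
    rw [Nat.testBit_succ, Nat.testBit_succ, Nat.testBit_succ]
    have e1 : 2 * i / 2 = i := by omega
    have e2 : (2 * i + 1) / 2 = i := by omega
    rw [e1, e2]
    simp

theorem rmp_bit (S i j : ℕ) :
    (rmp S (2 * i)).testBit j = true ↔ S.testBit j = true ∧ j ≠ 2 * i ∧ j ≠ 2 * i + 1 := by
  have e : rmp S (2 * i) = S ^^^ (S &&& (2 ^ (2 * i) ||| 2 ^ (2 * i + 1))) := by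
    unfold rmp
    rw [xor_one_even]
    rfl
  rw [e, Nat.testBit_xor, Nat.testBit_and, Nat.testBit_or, Nat.testBit_two_pow, Nat.testBit_two_pow]
  by_cases h1 : 2 * i = j
  · subst h1
    simp
  · by_cases h2 : 2 * i + 1 = j
    · subst h2
      simp
    · cases S.testBit j <;> simp [h1, h2, Ne.symm h1, Ne.symm h2]

theorem lk_msk (v : Fin 20) (S : Finset (Fin 20)) (hv : v ∈ S) :
    lk (nfc 20 (msk S) Pa.NK) v = LK v (S.erase v) := by
  ext s
  constructor
  · rintro ⟨h1, h2, h3⟩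
    refine ⟨h1, ?_, ?_⟩
    · intro w hw
      refine Finset.mem_erase.mpr ⟨fun h => h1 (h ▸ hw), ?_⟩
      exact (msk_bit' S w).mp (h2 w (Finset.mem_insert_of_mem hw))
    · rw [K_eq]
      refine ⟨fun i _ => ?_, h3⟩
      have hi := i.2
      have : ∀ i : Fin 20, (1048575 : ℕ).testBit i.1 = true := by decide
      exact this i
  · rintro ⟨h1, h2, h3⟩
    rw [K_eq] at h3
    refine ⟨h1, fun i hi => ?_, h3.2⟩
    rw [msk_bit']
    rcases Finset.mem_insert.mp hi with rfl | hi
    · exact hv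
    · exact Finset.mem_of_mem_erase (h2 hi)

theorem anti_val (v : Fin 20) : (anti v).1 = 2 * (v.1 / 2) + (1 - v.1 % 2) := rfl

theorem anti_anti (v : Fin 20) : anti (anti v) = v := by
  apply Fin.ext
  rw [anti_val, anti_val]
  omega

theorem anti_inj : Function.Injective anti := fun a b h => by
  rw [← anti_anti a, h, anti_anti]

theorem anti_div (v : Fin 20) : (anti v).1 / 2 = v.1 / 2 := by
  rw [anti_val]; omega

theorem anti_mod (v : Fin 20) : (anti v).1 % 2 = 1 - v.1 % 2 := by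
  rw [anti_val]; omega

/-- the link inside `S`, for an even vertex -/
theorem LK_even (i : ℕ) (hi : i < 10) (S : Finset (Fin 20)) (hv : (⟨2 * i, by omega⟩ : Fin 20) ∈ S) :
    LK ⟨2 * i, by omega⟩ (S.erase ⟨2 * i, by omega⟩) = nfc 20 (rmp (msk S) (2 * i)) (Pa.NV i) := by
  rw [← lk_msk _ S hv]
  exact lk_NK i (msk S) hi (msk_lt S) ((msk_bit' S ⟨2 * i, by omega⟩).mpr hv)

theorem famH_of (i : ℕ) (hi : i < 10) (U : Finset (Fin 20)) (hU : AF U)
    (h1 : (⟨2 * i, by omega⟩ : Fin 20) ∉ U) (h2 : anti ⟨2 * i, by omega⟩ ∉ U)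
    (h : Hidx ⟨2 * i, by omega⟩ U) : FamH i (msk U) := by
  have e2 : anti (⟨2 * i, by omega⟩ : Fin 20) = ⟨2 * i + 1, by omega⟩ := by
    apply Fin.ext
    rw [anti_val]
    show 2 * (2 * i / 2) + (1 - 2 * i % 2) = 2 * i + 1
    omega
  rw [e2] at h2
  refine ⟨msk_lt U, ?_, ?_, ?_, ?_⟩
  · rintro j ⟨ha, hb⟩
    obtain ⟨a, ha1, ha2⟩ := (msk_bit U _).mp ha
    obtain ⟨b, hb1, hb2⟩ := (msk_bit U _).mp hb
    apply hU a ha1
    have : anti a = b := by
      apply Fin.ext
      rw [anti_val]; omega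
    rw [this]; exact hb1
  · rw [bit_false, msk_bit_lt U _ (by omega)]; exact h1
  · rw [bit_false, msk_bit_lt U _ (by omega)]; exact h2
  · rcases h with h | ⟨h3, h4⟩
    · left
      intro w hw
      obtain ⟨x, hx, rfl⟩ := (msk_bit U w).mp hw
      have := h x hx
      have e : (⟨2 * i, by omega⟩ : Fin 20).1 / 2 = i := by show 2 * i / 2 = i; omega
      rw [e] at this
      exact this
    · have e : (⟨2 * i, by omega⟩ : Fin 20).1 / 2 = i := by show 2 * i / 2 = i; omega
      have e' : (⟨2 * i, by omega⟩ : Fin 20).1 % 2 = 0 := by show 2 * i % 2 = 0; omega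
      rw [e] at h3
      rw [e'] at h4
      rcases Nat.eq_zero_or_pos i with h0 | hpos
      · left
        intro w hw
        obtain ⟨x, hx, rfl⟩ := (msk_bit U w).mp hw
        subst h0
        by_contra hcon
        have hx0 : x.1 / 2 = 0 := by omega
        have hx2 := h4 x hx hx0
        have : x = ⟨2 * 0, by omega⟩ := Fin.ext (by show x.1 = 2 * 0; omega)
        exact h1 (this ▸ hx)
      · right
        constructor
        · obtain ⟨w, hw, hw0⟩ := h3 0 hpos
          have := h4 w hw hw0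
          exact (msk_bit U 0).mpr ⟨w, hw, by omega⟩
        · intro j hj
          obtain ⟨w, hw, hwj⟩ := h3 j hj
          rcases Nat.mod_two_eq_zero_or_one w.1 with hm | hm
          · left; exact (msk_bit U _).mpr ⟨w, hw, by omega⟩
          · right; exact (msk_bit U _).mpr ⟨w, hw, by omega⟩

theorem rmp_ins (i : ℕ) (hi : i < 10) (U : Finset (Fin 20))
    (h1 : (⟨2 * i, by omega⟩ : Fin 20) ∉ U) (h2 : anti ⟨2 * i, by omega⟩ ∉ U) :
    rmp (msk (insert ⟨2 * i, by omega⟩ U)) (2 * i) = msk U := by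
  have e2 : anti (⟨2 * i, by omega⟩ : Fin 20) = ⟨2 * i + 1, by omega⟩ := by
    apply Fin.ext
    rw [anti_val]
    show 2 * (2 * i / 2) + (1 - 2 * i % 2) = 2 * i + 1
    omega
  rw [e2] at h2
  refine eq_of_bits ?_ (fun j hj => msk_bit_ge U j hj) ?_
  · intro j hj
    rw [bit_false, rmp_bit]
    rintro ⟨h, -⟩
    rw [msk_bit_ge _ j hj] at h
    exact absurd h (by simp)
  · intro j hj
    rw [rmp_bit, msk_bit_lt _ j hj, msk_bit_lt _ j hj, Finset.mem_insert]
    constructor
    · rintro ⟨h | h, h3, h4⟩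
      · exact absurd (congrArg Fin.val h) h3
      · exact h
    · intro h
      refine ⟨Or.inr h, ?_, ?_⟩
      · rintro rfl; exact h1 h
      · rintro rfl; exact h2 h

theorem cmpl_bit' (i U j : ℕ) : (cmpl i U).testBit j =
    (((1048575 : ℕ).testBit j ^^ (3 * 4 ^ i).testBit j) ^^ U.testBit j) := by
  have : cmpl i U = (1048575 ^^^ (3 * 4 ^ i)) ^^^ U := rfl
  rw [this, Nat.testBit_xor, Nat.testBit_xor]

theorem three_bit : ∀ i < 10, ∀ j < 20, (3 * 4 ^ i).testBit j = decide (j = 2 * i ∨ j = 2 * i + 1) := by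
  decide +kernel

theorem full_bit : ∀ j < 20, (1048575 : ℕ).testBit j = true := by decide +kernel

theorem three_lt : ∀ i < 10, 3 * 4 ^ i < 2 ^ 20 := by decide +kernel

theorem high {m : ℕ} (h : m < 2 ^ 20) (j : ℕ) (hj : 20 ≤ j) : m.testBit j = false :=
  Nat.testBit_lt_two_pow (lt_of_lt_of_le h (Nat.pow_le_pow_right (by norm_num) hj))

theorem rmp_compl (i : ℕ) (hi : i < 10) (U : Finset (Fin 20))
    (h1 : (⟨2 * i, by omega⟩ : Fin 20) ∉ U) (h2 : anti ⟨2 * i, by omega⟩ ∉ U) :
    rmp (msk Uᶜ) (2 * i) = cmpl i (msk U) := by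
  have e2 : anti (⟨2 * i, by omega⟩ : Fin 20) = ⟨2 * i + 1, by omega⟩ := by
    apply Fin.ext
    rw [anti_val]
    show 2 * (2 * i / 2) + (1 - 2 * i % 2) = 2 * i + 1
    omega
  rw [e2] at h2
  refine eq_of_bits ?_ ?_ ?_
  · intro j hj
    rw [bit_false, rmp_bit]
    rintro ⟨h, -⟩
    rw [msk_bit_ge _ j hj] at h
    exact absurd h (by simp)
  · intro j hj
    rw [cmpl_bit', high (by norm_num) j hj, high (three_lt i hi) j hj, msk_bit_ge _ j hj]
    rfl
  · intro j hj
    rw [rmp_bit, msk_bit_lt _ j hj, Finset.mem_compl, cmpl_bit', full_bit j hj, three_bit i hi j hj]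
    have hm := msk_bit_lt U j hj
    by_cases hj1 : j = 2 * i
    · subst hj1
      have : (msk U).testBit (2 * i) = false := by rw [bit_false, hm]; exact h1
      rw [this]; simp
    · by_cases hj2 : j = 2 * i + 1
      · subst hj2
        have : (msk U).testBit (2 * i + 1) = false := by rw [bit_false, hm]; exact h2
        rw [this]; simp
      · by_cases hjU : (⟨j, hj⟩ : Fin 20) ∈ U
        · have := hm.mpr hjU
          rw [this]
          simp [hj1, hj2, hjU]
        · have : (msk U).testBit j = false := by rw [bit_false, hm]; exact hjU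
          rw [this]
          simp [hj1, hj2, hjU]

/-! ### the antipodal map -/

theorem image_anti_anti (s : Finset (Fin 20)) : (s.image anti).image anti = s := by
  rw [Finset.image_image]
  have : anti ∘ anti = id := by funext v; exact anti_anti v
  rw [this, Finset.image_id]

theorem mem_image_anti (s : Finset (Fin 20)) (w : Fin 20) : w ∈ s.image anti ↔ anti w ∈ s := by
  constructor
  · intro h
    obtain ⟨x, hx, rfl⟩ := Finset.mem_image.mp h
    rwa [anti_anti]
  · intro h
    exact Finset.mem_image.mpr ⟨_, h, anti_anti w⟩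

theorem LK_anti (v : Fin 20) (S : Finset (Fin 20)) (s : Finset (Fin 20)) (hs : s ∈ LK v S) :
    s.image anti ∈ LK (anti v) (S.image anti) := by
  obtain ⟨h1, h2, h3⟩ := hs
  refine ⟨?_, Finset.image_subset_image h2, ?_⟩
  · rw [mem_image_anti, anti_anti]; exact h1
  · rw [← Finset.image_insert]
    exact K_anti _ h3

theorem LK_anti_homeo (v : Fin 20) (S : Finset (Fin 20)) :
    Nonempty (Real (LK (anti v) (S.image anti)) ≃ₜ Real (LK v S)) := by
  refine relabel_homeo anti anti_inj _ _ fun t => ?_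
  constructor
  · intro ht
    exact ⟨_, LK_anti v S t ht, (image_anti_anti t).symm⟩
  · rintro ⟨s, hs, rfl⟩
    have := LK_anti (anti v) (S.image anti) s hs
    rwa [anti_anti, image_anti_anti] at this

theorem Par1_homeo (F : Type) [Field F] {X Y : Type} [TopologicalSpace X] [TopologicalSpace Y]
    (e : X ≃ₜ Y) (h : Par1 F X) : Par1 F Y := by
  refine Par1_of_equiv F (⟨e, e.continuous⟩ : C(X, Y)) (⟨e.symm, e.symm.continuous⟩ : C(Y, X)) ?_ h
  have : (⟨e, e.continuous⟩ : C(X, Y)).comp (⟨e.symm, e.symm.continuous⟩ : C(Y, X)) = .id Y := by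
    ext y
    exact e.apply_symm_apply y
  rw [this]

theorem AF_anti {U : Finset (Fin 20)} (hU : AF U) : AF (U.image anti) := by
  intro w hw hw'
  rw [mem_image_anti] at hw hw'
  exact hU _ hw hw'

theorem Hidx_anti {v : Fin 20} {U : Finset (Fin 20)} (h : Hidx v U) :
    Hidx (anti v) (U.image anti) := by
  rcases h with h | ⟨h1, h2⟩
  · left
    intro w hw
    rw [mem_image_anti] at hw
    have := h _ hw
    rw [anti_div] at this
    rw [anti_div]; exact this
  · right
    rw [anti_div]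
    refine ⟨fun j hj => ?_, fun w hw hw0 => ?_⟩
    · obtain ⟨w, hw, hwj⟩ := h1 j hj
      exact ⟨anti w, by rw [mem_image_anti, anti_anti]; exact hw, by rw [anti_div]; exact hwj⟩
    · rw [mem_image_anti] at hw
      have := h2 _ hw (by rw [anti_div]; exact hw0)
      rw [anti_mod] at this
      rw [anti_mod]
      omega

theorem compl_anti (S : Finset (Fin 20)) : Sᶜ.image anti = (S.image anti)ᶜ := by
  ext w
  rw [mem_image_anti, Finset.mem_compl, Finset.mem_compl, mem_image_anti]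

/-! ### even vertices -/

theorem even_form (v : Fin 20) (hv : v.1 % 2 = 0) : ∃ (i : ℕ) (hi : 2 * i < 20), v = ⟨2 * i, hi⟩ :=
  ⟨v.1 / 2, by omega, Fin.ext (by show v.1 = 2 * (v.1 / 2); omega)⟩

theorem fact0_even (F : Type) [Field F]
    (fam0 : ∀ i U : ℕ, i < 10 → FamH i U → Par1 F (Real (nfc 20 U (Pa.NV i))))
    (v : Fin 20) (hv : v.1 % 2 = 0) (U : Finset (Fin 20)) (hU : AF U) (h1 : v ∉ U)
    (h2 : anti v ∉ U) (h : Hidx v U) : Par1 F (Real (LK v U)) := by
  obtain ⟨i, hi', rfl⟩ := even_form v hv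
  have hi : i < 10 := by omega
  have e := LK_even i hi (insert ⟨2 * i, by omega⟩ U) (Finset.mem_insert_self _ _)
  rw [Finset.erase_insert h1, rmp_ins i hi U h1 h2] at e
  rw [e]
  exact fam0 i _ hi (famH_of i hi U hU h1 h2 h)

theorem fact1_even (F : Type) [Field F]
    (fam1 : ∀ i U : ℕ, i < 10 → FamH i U → Par1 F (Real (nfc 20 (cmpl i U) (Pa.NV i))))
    (v : Fin 20) (hv : v.1 % 2 = 0) (U : Finset (Fin 20)) (hU : AF U) (h1 : v ∉ U)
    (h2 : anti v ∉ U) (h : Hidx v U) : Par1 F (Real (LK v (insert v U)ᶜ)) := by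
  obtain ⟨i, hi', rfl⟩ := even_form v hv
  have hi : i < 10 := by omega
  have e := LK_even i hi Uᶜ (Finset.mem_compl.mpr h1)
  rw [rmp_compl i hi U h1 h2] at e
  have e' : (insert (⟨2 * i, by omega⟩ : Fin 20) U)ᶜ = Uᶜ.erase ⟨2 * i, by omega⟩ := by
    ext w
    simp only [Finset.mem_compl, Finset.mem_insert, Finset.mem_erase, not_or]
  rw [e', e]
  exact fam1 i _ hi (famH_of i hi U hU h1 h2 h)

/-- `fact0` from `fam0` -/
theorem fact0' (F : Type) [Field F]
    (fam0 : ∀ i U : ℕ, i < 10 → FamH i U → Par1 F (Real (nfc 20 U (Pa.NV i))))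
    (v : Fin 20) (U : Finset (Fin 20)) (hU : AF U) (h1 : v ∉ U)
    (h2 : anti v ∉ U) (h : Hidx v U) : Par1 F (Real (LK v U)) := by
  rcases Nat.mod_two_eq_zero_or_one v.1 with hv | hv
  · exact fact0_even F fam0 v hv U hU h1 h2 h
  · obtain ⟨e⟩ := LK_anti_homeo v U
    refine Par1_homeo F e (fact0_even F fam0 (anti v) (by rw [anti_mod]; omega) _ (AF_anti hU)
      (by rw [mem_image_anti, anti_anti]; exact h1) (by rw [mem_image_anti, anti_anti]; exact h2)
      (Hidx_anti h))

/-- `fact1` from `fam1` -/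
theorem fact1' (F : Type) [Field F]
    (fam1 : ∀ i U : ℕ, i < 10 → FamH i U → Par1 F (Real (nfc 20 (cmpl i U) (Pa.NV i))))
    (v : Fin 20) (U : Finset (Fin 20)) (hU : AF U) (h1 : v ∉ U)
    (h2 : anti v ∉ U) (h : Hidx v U) : Par1 F (Real (LK v (insert v U)ᶜ)) := by
  rcases Nat.mod_two_eq_zero_or_one v.1 with hv | hv
  · exact fact1_even F fam1 v hv U hU h1 h2 h
  · obtain ⟨e⟩ := LK_anti_homeo v (insert v U)ᶜ
    rw [compl_anti, Finset.image_insert] at e
    exact Par1_homeo F e (fact1_even F fam1 (anti v) (by rw [anti_mod]; omega) _ (AF_anti hU)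
      (by rw [mem_image_anti, anti_anti]; exact h1) (by rw [mem_image_anti, anti_anti]; exact h2)
      (Hidx_anti h))

end Y7

end Pool.Agent.helper73.TC
end
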